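import Pool.Agent.Q212.GameAbs2

/-!
# `MP_d14747_lc`, Q1: no such space exists

*Assume that `0^sharp` exists (or PFA). Is there a space `(X, τ) ∈ L` such that in `L` player II has
a winning strategy in the Rothberger game on `(X, τ)` while in `V` II has no winning strategy in
the Rothberger game on `X` with the topology generated by `τ`?*

No, under no hypothesis: the existence of a winning strategy of II is upward absolute between
transitive models of ZFC. Let `σ ∈ L` be a winning strategy. For each position `s` of moves in `L`
the family of those members of `τ` which are not answers of `σ` to a cover played after `s` is not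
a cover, so there is a point `y` all of whose neighbourhoods in `τ` are such answers; hence each
open cover in `V` has a member which contains the answer of `σ` to some cover in `L`. This gives a
strategy in `V` in which II simulates a run of the game of `L`, move by move. The run as a whole
need not be in `L`; but for each point `z ∈ X` the tree of the positions of `L` at which `σ` has
always answered with sets which do not contain `z` belongs to `L` and has no infinite branch in `L`,
so it has none in `V` by the absoluteness of well-foundedness.

Everything takes place inside the type `ZFSet.{0}` of all sets. `IsZFC V` (in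
`Pool.Agent.W868.Defs`) says that `V` is a transitive model of ZFC, for example the
class of all sets; `Lof V` (in `Pool.Agent.Q212.GameAbs2`) is the constructible universe of `V`, the
union of the levels `LA ∅ α` (in `Pool.Agent.Y588.SDefs`) for the ordinals `α` of `V`.
-/

set_option autoImplicit false

namespace Pool.Agent.Results.MP_d14747_lc.UpwardAbsolute

open Pool.Agent.W868 Pool.Agent.Q212.GA

/-- **Main theorem.** Let `V` be any transitive model of ZFC, for example the class of all sets. Its
constructible universe `Lof V` is a transitive model of ZFC contained in `V`. If `(X, τ)` is a
topological space in `Lof V` and if, in `Lof V`, player II has a winning strategy in the Rothberger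
game on `(X, τ)`, then, in `V`, player II has a winning strategy in the Rothberger game on `X` with
the topology generated by `τ`. The same holds for all transitive models `M ⊆ V` of ZFC in place of
`Lof V`. -/
theorem result : IsZFC (Set.univ : Set ZFSet.{0}) ∧
    ∀ V : Set ZFSet.{0}, IsZFC V → (IsZFC (Lof V) ∧ Lof V ⊆ V) ∧
      (∀ X τ : ZFSet.{0}, IsTop (Lof V) X τ →
        WinsRothberger (Lof V) X τ → WinsRothberger V X τ) ∧
      ∀ M : Set ZFSet.{0}, IsZFC M → M ⊆ V → ∀ X τ : ZFSet.{0}, IsTop M X τ →
        WinsRothberger M X τ → WinsRothberger V X τ := by
  have h : ∀ M V : Set ZFSet.{0}, IsZFC M → IsZFC V → M ⊆ V → ∀ X τ : ZFSet.{0}, IsTop M X τ →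
      WinsRothberger M X τ → WinsRothberger V X τ := fun M V hM hV hMV X τ hT hw =>
    roth_up hM hV hMV hT.carrier hT.opens hT.sub hw
  refine ⟨isZFC_univ, fun V hV => ⟨⟨isZFC_Lof hV.toIsZF, Lof_subset hV.toIsZF⟩, ?_, ?_⟩⟩
  · exact h _ _ (isZFC_Lof hV.toIsZF) hV (Lof_subset hV.toIsZF)
  · exact fun M hM hMV => h M V hM hV hMV

end Pool.Agent.Results.MP_d14747_lc.UpwardAbsolute
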